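import Pool.Agent.Lib.MP_fb3619_al.AB.Iface

/-!
# MP_fb3619_al, board AB, row FGR (paper 9): reduction to finitely generated groups with trivial
locally finite radical
-/

set_option autoImplicit false

universe u

namespace Pool.Agent.FourGp.AB

open Pool.Agent.FourGp.FF
open Pool.Agent.FourGp.H47 (inv_of_sq)
open Pool.Agent.FourGp.H99 (LF)

/-- The finitely generated case, by `rad`. -/
theorem fg_case (hr : RedS.{u}) (G : Type u) [Group G] (K : Subgroup G) (a b c : G)
    (h : Fr K a b c) (hF : (Fx K a b : Set G).Finite) (hfg : K.FG) (hab : Ab K b a) : LF K := by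
  refine rad (fun G _ K a b _ => (Fx K a b : Set G).Finite ∧ K.FG ∧ Ab K b a) ?_ ?_ G K a b c h
    ⟨hF, hfg, hab⟩
  · rintro G _ K N a b c Q _ K' a' b' c' π h q ⟨hF, hfg, hab⟩
    refine ⟨q.fx_finite h hF, ?_, ?_⟩
    · have e : K' = π.range := by
        ext x
        exact q.ran x
      rw [e]
      have h1 : Group.FG K := (Group.fg_iff_subgroup_fg K).2 hfg
      have h2 : Group.FG π.range := inferInstance
      exact (Group.fg_iff_subgroup_fg _).1 h2
    · intro u v hu hv h1 h2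
      obtain ⟨k, hk, hk1, rfl⟩ := q.lift_ab h hu h1
      obtain ⟨l, hl, hl1, rfl⟩ := q.lift_ab h hv h2
      have h3 := hab k l hk hl hk1 hl1
      rw [← map_mul, ← map_mul]
      congr 1
      exact Subtype.ext h3
  · rintro G _ K a b c h hN ⟨hF, hfg, hab⟩
    exact hr G K a b c h hN hF hfg hab

/-- A subgroup generated by a set invariant under the involution `z` is invariant. -/
theorem closure_inv {G : Type u} [Group G] {z : G} (hz : z * z = 1) {T : Set G}
    (hT : ∀ t ∈ T, z * t * z ∈ T) : ∀ u ∈ Subgroup.closure T, z * u * z ∈ Subgroup.closure T := by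
  intro u hu
  refine Subgroup.closure_induction (p := fun u _ => z * u * z ∈ Subgroup.closure T)
    ?_ ?_ ?_ ?_ hu
  · intro t ht
    exact Subgroup.subset_closure (hT t ht)
  · rw [mul_one, hz]
    exact Subgroup.one_mem _
  · intro x y _ _ hx hy
    have e : z * (x * y) * z = (z * x * z) * (z * y * z) := by
      calc z * (x * y) * z = z * x * 1 * y * z := by group
        _ = z * x * (z * z) * y * z := by rw [hz]
        _ = _ := by group
    rw [e]
    exact Subgroup.mul_mem _ hx hy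
  · intro x _ hx
    have e : z * x⁻¹ * z = (z * x * z)⁻¹ := by
      rw [mul_inv_rev, mul_inv_rev, inv_of_sq hz]
      group
    rw [e]
    exact Subgroup.inv_mem _ hx

theorem cj_cj {G : Type u} [Group G] {x y z : G} (h1 : x * y = z) (h2 : y * x = z) (t : G) :
    x * (y * t * y) * x = z * t * z := by
  calc x * (y * t * y) * x = (x * y) * t * (y * x) := by group
    _ = z * t * z := by rw [h1, h2]

/-- Row FGR. -/
theorem fgr : FgrS.{u} := by
  classical
  intro hr G _ K a b c h hF hab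
  refine LF_sub ?_
  rintro Y hYK ⟨T, hT⟩
  set T' : Finset G := T ∪ T.image (fun t => a * t * a) ∪ (T.image (fun t => b * t * b) ∪
    T.image (fun t => c * t * c)) with hT'
  have hmem : ∀ x, x ∈ T' ↔ ∃ t ∈ T, x = t ∨ x = a * t * a ∨ x = b * t * b ∨ x = c * t * c := by
    intro x
    rw [hT']
    simp only [Finset.mem_union, Finset.mem_image]
    constructor
    · rintro ((hx | ⟨t, ht, rfl⟩) | (⟨t, ht, rfl⟩ | ⟨t, ht, rfl⟩))
      · exact ⟨x, hx, Or.inl rfl⟩
      · exact ⟨t, ht, Or.inr (Or.inl rfl)⟩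
      · exact ⟨t, ht, Or.inr (Or.inr (Or.inl rfl))⟩
      · exact ⟨t, ht, Or.inr (Or.inr (Or.inr rfl))⟩
    · rintro ⟨t, ht, rfl | rfl | rfl | rfl⟩
      · exact Or.inl (Or.inl ht)
      · exact Or.inl (Or.inr ⟨t, ht, rfl⟩)
      · exact Or.inr (Or.inl ⟨t, ht, rfl⟩)
      · exact Or.inr (Or.inr ⟨t, ht, rfl⟩)
  set K0 : Subgroup G := Subgroup.closure (T' : Set G) with hK0
  have hTK : ∀ t ∈ T, t ∈ K := fun t ht => hYK (by
    rw [← hT]; exact Subgroup.subset_closure ht)
  have hKK : K0 ≤ K := by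
    rw [hK0, Subgroup.closure_le]
    intro x hx
    obtain ⟨t, ht, hx'⟩ := (hmem x).1 hx
    rcases hx' with rfl | rfl | rfl | rfl
    · exact hTK _ ht
    · exact h.cjmem h.aa (hTK _ ht)
    · exact h.cjmem h.bb (hTK _ ht)
    · exact h.cjmem h.cc (hTK _ ht)
  have hYK0 : Y ≤ K0 := by
    rw [← hT, Subgroup.closure_le]
    intro t ht
    exact Subgroup.subset_closure ((hmem t).2 ⟨t, ht, Or.inl rfl⟩)
  have haa : ∀ t : G, a * (a * t * a) * a = t := fun t => by
    rw [cj_cj h.aa h.aa]; group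
  have hbb : ∀ t : G, b * (b * t * b) * b = t := fun t => by
    rw [cj_cj h.bb h.bb]; group
  have ha : ∀ u ∈ K0, a * u * a ∈ K0 := by
    refine closure_inv h.aa ?_
    intro x hx
    obtain ⟨t, ht, hx'⟩ := (hmem x).1 hx
    refine (hmem _).2 ⟨t, ht, ?_⟩
    rcases hx' with rfl | rfl | rfl | rfl
    · exact Or.inr (Or.inl rfl)
    · exact Or.inl (haa t)
    · exact Or.inr (Or.inr (Or.inr (cj_cj h.ab h.ba t)))
    · exact Or.inr (Or.inr (Or.inl (cj_cj h.ac h.ca t)))
  have hb : ∀ u ∈ K0, b * u * b ∈ K0 := by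
    refine closure_inv h.bb ?_
    intro x hx
    obtain ⟨t, ht, hx'⟩ := (hmem x).1 hx
    refine (hmem _).2 ⟨t, ht, ?_⟩
    rcases hx' with rfl | rfl | rfl | rfl
    · exact Or.inr (Or.inr (Or.inl rfl))
    · exact Or.inr (Or.inr (Or.inr (cj_cj h.ba h.ab t)))
    · exact Or.inl (hbb t)
    · exact Or.inr (Or.inl (cj_cj h.bc h.cb t))
  set M : Subgroup G := NS (K0 : Set G) with hM
  have haM : a ∈ M := NS_invol h.aa ha
  have hbM : b ∈ M := NS_invol h.bb hb
  have hcM : c ∈ M := by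
    rw [← h.ab]
    exact M.mul_mem haM hbM
  have hKM : K0 ≤ M := by
    intro k hk t
    refine ⟨fun ht => K0.mul_mem (K0.mul_mem (K0.inv_mem hk) ht) hk, fun ht => ?_⟩
    have h1 := K0.mul_mem (K0.mul_mem hk ht) (K0.inv_mem hk)
    have e : k * (k⁻¹ * t * k) * k⁻¹ = t := by group
    rwa [e] at h1
  have hfr : Fr (K0.subgroupOf M) (⟨a, haM⟩ : M) ⟨b, hbM⟩ ⟨c, hcM⟩ := by
    refine ⟨⟨?_⟩, ?_, Subtype.ext h.aa, Subtype.ext h.bb, Subtype.ext h.cc, Subtype.ext h.ab,
      fun hm => h.na (hKK (Subgroup.mem_subgroupOf.1 hm)),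
      fun hm => h.nb (hKK (Subgroup.mem_subgroupOf.1 hm)),
      fun hm => h.nc (hKK (Subgroup.mem_subgroupOf.1 hm))⟩
    · intro n hn g
      rw [Subgroup.mem_subgroupOf] at hn ⊢
      have h1 := (M.inv_mem g.2 (n : G)).1 hn
      have e : ((g : G)⁻¹)⁻¹ * n * (g : G)⁻¹ = ((g * n * g⁻¹ : M) : G) := by
        push_cast; group
      rwa [e] at h1
    · intro k hk
      obtain ⟨n, hn⟩ := h.odd _ (hKK (Subgroup.mem_subgroupOf.1 hk))
      exact ⟨n, Subtype.ext (by simpa using hn)⟩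
  have hcz : ∀ {x : G} {hx : x ∈ M} {u : M}, u ∈ Cz (K0.subgroupOf M) ⟨x, hx⟩ →
      (u : G) ∈ Cz K x := by
    intro x hx u hu
    rw [mem_Cz, Subgroup.mem_subgroupOf] at hu
    exact mem_Cz.2 ⟨hKK hu.1, congrArg Subtype.val hu.2⟩
  have hLF : LF (K0.subgroupOf M) := by
    refine fg_case hr M (K0.subgroupOf M) _ _ _ hfr ?_ ?_ ?_
    · refine Set.Finite.of_finite_image (f := Subtype.val) (hF.subset ?_)
        (Subtype.val_injective.injOn)
      rintro _ ⟨u, hu, rfl⟩
      have hu' := mem_Fx.1 hu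
      exact mem_Fx.2 ⟨hKK (Subgroup.mem_subgroupOf.1 hu'.1), congrArg Subtype.val hu'.2.1,
        congrArg Subtype.val hu'.2.2⟩
    · have h1 : Group.FG K0 := (Group.fg_iff_subgroup_fg K0).2 ⟨T', rfl⟩
      have h2 : Group.FG (K0.subgroupOf M) :=
        Group.fg_of_surjective (f := (Subgroup.subgroupOfEquivOfLe hKM).symm.toMonoidHom)
          (MulEquiv.surjective _)
      exact (Group.fg_iff_subgroup_fg _).1 h2
    · intro u v hu hv h1 h2
      exact Subtype.ext (hab _ _ (hcz hu) (hcz hv) (congrArg Subtype.val h1)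
        (congrArg Subtype.val h2))
  have hLF0 : LF K0 := LF_of_inj (Subgroup.subgroupOfEquivOfLe hKM).symm.toMonoidHom
    (MulEquiv.injective _) hLF
  have hLFY : LF Y := LF_mono hYK0 hLF0
  have h3 : Finite (⊤ : Subgroup Y) := by
    refine hLFY ⊤ ?_
    rw [← Group.fg_def, Group.fg_iff_subgroup_fg]
    exact ⟨T, hT⟩
  exact Finite.of_equiv _ (Subgroup.topEquiv (G := Y)).toEquiv

end Pool.Agent.FourGp.AB
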