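import Pool.Agent.Lib.MP_fb3619_al.FF.Bridge

/-!
# MP_fb3619_al, board AB: one involution with commuting inverted elements. Statements of the rows.
Paper: `AB/Paper.md`.
-/

set_option autoImplicit false

universe u

namespace Pool.Agent.FourGp.AB

open Pool.Agent.FourGp.FF
open Pool.Agent.FourGp.FF.Uu (PP pp_swap)
open Pool.Agent.FourGp.FF.Fr (fx_swap)
open Pool.Agent.FourGp.H99 (LF)

/-- `u ∈ C_K(v)` is inverted by `s`. -/
def Iv {G : Type u} [Group G] (K : Subgroup G) (v s u : G) : Prop :=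
  u ∈ K ∧ u * v = v * u ∧ s * u * s = u⁻¹

/-- The subgroup `X = X_a` of `A = C_K(a)` (paper 1), `Q_a = X ∩ F`. -/
structure XS {G : Type u} [Group G] (K : Subgroup G) (a b : G) (X : Subgroup G) : Prop where
  le : X ≤ Cz K a
  ind : X.relIndex (Cz K a) ≠ 0
  nor : ∀ d ∈ Cz K a, ∀ x ∈ X, d⁻¹ * x * d ∈ X
  inv : VInv a b X
  /-- `Q_a` centralizes `A⁻` -/
  qi : ∀ q ∈ X, q ∈ Fx K a b → ∀ u, Iv K a b u → q * u = u * q
  /-- `Q_a` is central in `X` -/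
  qx : ∀ q ∈ X, q ∈ Fx K a b → ∀ x ∈ X, q * x = x * q
  /-- `[X, A⁻] ≤ Q_a` -/
  com : ∀ x ∈ X, ∀ u, Iv K a b u → x⁻¹ * u * x * u⁻¹ ∈ Fx K a b
  /-- the centralizer of `X` in `A` is finite -/
  zfin : {z | z ∈ Cz K a ∧ ∀ x ∈ X, z * x = x * z}.Finite

/-- Polar coordinate (paper 2): `k` is inverted by `b`, `α = α(k)`, i.e. `α ∈ A⁻` and `c^α` is
perpendicular to the involution `b k` (so `c^α` is the common perpendicular of `a` and `b k`). -/
structure Pol {G : Type u} [Group G] (K : Subgroup G) (a b c k α : G) : Prop where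
  mem : k ∈ K
  inv : b * k * b = k⁻¹
  al : Iv K a b α
  perp : (α⁻¹ * c * α) * (b * k) = (b * k) * (α⁻¹ * c * α)

/-- The `r`-subgroup `Y` of `Z = X_c` (paper 6). -/
structure YS {G : Type u} [Group G] (K : Subgroup G) (a b : G) (X Z : Subgroup G) (r : ℕ)
    (Y : Subgroup G) : Prop where
  le : Y ≤ Z
  inv : VInv a b Y
  inf : Infinite Y
  pr : ∀ y ∈ Y, ∃ n : ℕ, y ^ (r ^ n) = 1
  /-- `Y` commutes with the `r`-elements of `Q_a` -/
  cq : ∀ y ∈ Y, ∀ q ∈ X, q ∈ Fx K a b → (∃ n : ℕ, q ^ (r ^ n) = 1) → q * y = y * q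

/-- STR (paper 1). -/
def StrS : Prop := ∀ (G : Type u) [Group G] (K : Subgroup G) (a b c : G), Fr K a b c →
  (Fx K a b : Set G).Finite → (∀ t, TT K a b c a t → t = 1) → ∃ X, XS K a b X

/-- POL (paper 2): existence, uniqueness, equivariance of the polar coordinate. -/
def PolS : Prop := ∀ (G : Type u) [Group G] (K : Subgroup G) (a b c : G), Fr K a b c →
  (∀ k ∈ K, b * k * b = k⁻¹ → ∃ α, Pol K a b c k α) ∧
  (∀ k α α', Pol K a b c k α → Pol K a b c k α' → α = α') ∧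
  (∀ k α f, Pol K a b c k α → f ∈ Fx K a b → Pol K a b c (f⁻¹ * k * f) (f⁻¹ * α * f))

/-- KAP (paper 2): the kappa lemma. -/
def KapS : Prop := ∀ (G : Type u) [Group G] (K : Subgroup G) (a b c : G), Fr K a b c →
  ∀ X, XS K a b X → ∀ k α u, Pol K a b c k α → u ∈ X → b * u * b = u⁻¹ →
  ∃ q x z, q = u⁻¹ * α * u * α⁻¹ ∧ q ∈ X ∧ q ∈ Fx K a b ∧ Ty K a x ∧ Ty K c z ∧
    z * a = a * z ∧ q * z = z * q ∧ b * k * u = x * z * q

/-- IOT (paper 2): the involution `y` of `⟨g⟩`, `g` a product of involutions of types `a` and `c`,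
is an odd power of `g`, and all involutions perpendicular to `y` invert `g`. -/
def IotS : Prop := ∀ (G : Type u) [Group G] (K : Subgroup G) (a b c : G), Fr K a b c →
  Ab K b a → ∀ g, PP K a c g → ∃ n : ℕ, Ty K b (g ^ (2 * n + 1)) ∧
    ∀ v, (Ty K a v ∨ Ty K c v) → v * g ^ (2 * n + 1) = g ^ (2 * n + 1) * v → v * g * v = g⁻¹

/-- KPI (paper 2): `b k u ∈ P` iff `u` commutes with `α(k)`. -/
def KpiS : Prop := ∀ (G : Type u) [Group G] (K : Subgroup G) (a b c : G), Fr K a b c →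
  Ab K b a → ∀ X, XS K a b X → ∀ k α u, Pol K a b c k α → u ∈ X → b * u * b = u⁻¹ →
  (PP K a c (b * k * u) ↔ u * α = α * u)

/-- LNK (paper 3). -/
def LnkS : Prop := ∀ (G : Type u) [Group G] (K : Subgroup G) (a b c : G), Fr K a b c →
  Ab K b a → ∀ X Z, XS K a b X → XS K c b Z → ∀ t w u α γ, Iv K b a t → w ∈ Z →
  b * w * b = w⁻¹ → u ∈ X → b * u * b = u⁻¹ → Pol K a b c (t⁻¹ * w * t) α →
  Pol K c b a (t * u * t⁻¹) γ → (u * α = α * u ↔ w * γ = γ * w)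

/-- EE1 (paper 4). -/
def Ee1S : Prop := ∀ (G : Type u) [Group G] (K : Subgroup G) (a b c : G), Fr K a b c →
  Ab K b a → ∀ w t t' α, Iv K c b w → Iv K b a t → Iv K b a t' →
  Pol K a b c (t⁻¹ * w * t) α → Pol K a b c (t'⁻¹ * w * t') α → t⁻¹ * w * t = t'⁻¹ * w * t'

/-- YCL (paper 5). -/
def YclS : Prop := ∀ (G : Type u) [Group G] (K : Subgroup G) (a b c : G), Fr K a b c →
  Ab K b a → ∀ X Z, XS K a b X → XS K c b Z →
  (∀ q ∈ X, q ∈ Z → q ∈ Fx K a b → q = 1) → ∀ t w u α, Iv K b a t → w ∈ Z →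
  b * w * b = w⁻¹ → u ∈ X → b * u * b = u⁻¹ → Pol K a b c (t⁻¹ * w * t) α →
  (u⁻¹ * α * u * α⁻¹) * w = w * (u⁻¹ * α * u * α⁻¹) → u * α = α * u

/-- REL (paper 6): pure algebra. -/
def RelS : Prop := ∀ (X Y : Type u) [Group X] [Group Y] (r m : ℕ) (P : Y → Subgroup X)
  (L : X → Subgroup Y), r.Prime → (∀ (x : X) (y : Y), x ∈ P y ↔ y ∈ L x) →
  (∀ (y : Y) (x x' : X), x * x' * x⁻¹ * x'⁻¹ ∈ P y) →
  (∀ (x : X) (y y' : Y), y * y' * y⁻¹ * y'⁻¹ ∈ L x) →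
  (∀ y : Y, (P y).index ≠ 0 ∧ (P y).index ≤ m ∧ Nat.Coprime r (P y).index) →
  (∀ x : X, (L x).index ≠ 0) → (∀ y : Y, ∃ n : ℕ, y ^ (r ^ n) = 1) →
  ∃ C : Subgroup Y, C.index ≠ 0 ∧ ∀ y ∈ C, ∀ x, x ∈ P y

/-- YIN (paper 6): the infinite `r`-group `Y`. -/
def YinS : Prop := ∀ (G : Type u) [Group G] (K : Subgroup G) (a b c : G), Fr K a b c →
  (Fx K a b : Set G).Finite → Infinite (Cz K c) → ∀ X Z, XS K a b X → XS K c b Z →
  ∃ r : ℕ, r.Prime ∧ ∃ Y, YS K a b X Z r Y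

/-- CZR (paper 6): the subgroup `C0`. -/
def CzrS : Prop := ∀ (G : Type u) [Group G] (K : Subgroup G) (a b c : G), Fr K a b c →
  (Fx K a b : Set G).Finite → Ab K b a → ∀ X Z, XS K a b X → XS K c b Z →
  (∀ q ∈ X, q ∈ Z → q ∈ Fx K a b → q = 1) → ∀ r Y, r.Prime → YS K a b X Z r Y →
  ∀ t, Iv K b a t → ∃ C : Subgroup G, C ≤ Y ∧ C.relIndex Y ≠ 0 ∧ (∀ w ∈ C, b * w * b ∈ C) ∧
    ∀ w ∈ C, b * w * b = w⁻¹ → ∀ α, Pol K a b c (t⁻¹ * w * t) α → ∀ x ∈ X, x * α = α * x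

/-- HDY (paper 7). -/
def HdyS : Prop := ∀ (G : Type u) [Group G] (K : Subgroup G) (a b c : G), Fr K a b c →
  (Fx K a b : Set G).Finite → Ab K b a → ∀ X Z, XS K a b X → XS K c b Z →
  (∀ q ∈ X, q ∈ Z → q ∈ Fx K a b → q = 1) → ∀ r Y, r.Prime → YS K a b X Z r Y →
  ∀ t, Iv K b a t → fi Y t

/-- UPR (paper 8): the subgroup generated by `A⁻` and `C⁻` is normalised by `K` and invariant
under the four-group. -/
def UprS : Prop := ∀ (G : Type u) [Group G] (K : Subgroup G) (a b c : G), Fr K a b c →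
  (∀ k ∈ K, ∀ u ∈ Uc K a b c, k⁻¹ * u * k ∈ Uc K a b c) ∧ VInv a b (Uc K a b c)

/-- END (paper 8). -/
def EndS : Prop := ∀ (G : Type u) [Group G] (K : Subgroup G) (a b c : G), Fr K a b c →
  NoLf K a b → (Fx K a b : Set G).Finite → K.FG → ∀ Y : Subgroup G, Y ≤ Cz K c → VInv a b Y →
  Infinite Y → (∀ t, Iv K b a t → fi Y t) → (∀ s, Iv K c a s → fi Y s) → False

/-- The theorem in the reduced situation. -/
def RedS : Prop := ∀ (G : Type u) [Group G] (K : Subgroup G) (a b c : G), Fr K a b c →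
  NoLf K a b → (Fx K a b : Set G).Finite → K.FG → Ab K b a → LF K

/-- The theorem. -/
def AbS : Prop := ∀ (G : Type u) [Group G] (K : Subgroup G) (a b c : G), Fr K a b c →
  (Fx K a b : Set G).Finite → Ab K b a → LF K

/-- FGR (paper 9). -/
def FgrS : Prop := RedS.{u} → AbS.{u}

/-! ### Small facts -/

variable {G : Type u} [Group G] {K : Subgroup G} {a b c : G}

theorem Iv.cz {v s u : G} (h : Iv K v s u) : u ∈ Cz K v := mem_Cz.2 ⟨h.1, h.2.1⟩

theorem fx_cb (h : Fr K a b c) : Fx K c b = Fx K a b := by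
  rw [← h.fx_rot]
  exact fx_swap

theorem conj_ca (h : Fr K a b c) {u : G} (hu : u * b = b * u) : c * u * c = a * u * a := by
  calc c * u * c = (a * b) * u * (b * a) := by rw [h.ab, h.ba]
    _ = a * (b * u) * b * a := by group
    _ = a * u * (b * b) * a := by rw [← hu]; group
    _ = a * u * a := by rw [h.bb, mul_one]

theorem ab_c (h : Fr K a b c) (hab : Ab K b a) : Ab K b c := by
  intro u v hu hv h1 h2
  rw [conj_ca h (mem_Cz.1 hu).2] at h1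
  rw [conj_ca h (mem_Cz.1 hv).2] at h2
  exact hab u v hu hv h1 h2

theorem Iv.ca (h : Fr K a b c) {u : G} (hu : Iv K b a u) : Iv K b c u :=
  ⟨hu.1, hu.2.1, by rw [conj_ca h hu.2.1]; exact hu.2.2⟩

theorem pp_iff (h : Fr K a b c) {g : G} : PP K a c g ↔ PP K c a g := by
  constructor
  · rintro ⟨x, y, hx, hy, rfl⟩
    exact pp_swap h.rot.swap hy hx
  · rintro ⟨x, y, hx, hy, rfl⟩
    exact pp_swap h hy hx

/-- The final assembly of the reduced situation. -/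
theorem red (hstr : StrS.{u}) (hyin : YinS.{u}) (hhdy : HdyS.{u}) (hend : EndS.{u}) :
    RedS.{u} := by
  intro G _ K a b c h hN hF hfg hab
  by_contra hLF
  have hcb := fx_cb h
  have hinfc : Infinite (Cz K c) := by
    by_contra hfin
    rw [not_infinite_iff_finite] at hfin
    exact hLF (lf_of_finite shu h.rot hfin)
  obtain ⟨hTa, hTc⟩ := ll uu mq h hN hab
  have hFc : (Fx K c b : Set G).Finite := by rw [hcb]; exact hF
  obtain ⟨X, hX⟩ := hstr G K a b c h hF hTa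
  obtain ⟨Z, hZ⟩ := hstr G K c b a h.rot.swap hFc (by
    intro t ht
    refine hTc t ⟨ht.1, ht.2.1, fun y hy => ht.2.2 y ?_⟩
    tauto)
  have hQ : ∀ q ∈ X, q ∈ Z → q ∈ Fx K a b → q = 1 := by
    intro q hqX hqZ hqF
    refine rr h hN hF (f := q) ⟨hqF, ?_⟩ ?_
    · intro u hu hui
      refine hZ.qi q hqZ (by rw [hcb]; exact hqF) u ⟨(mem_Cz.1 hu).1, (mem_Cz.1 hu).2, ?_⟩
      rw [← hui]
      exact (conj_ca h.rot (mem_Cz.1 hu).2).symm
    · refine pf_fi h.rot (f := q) (by rw [h.fx_rot]; exact hF) ⟨by rw [h.fx_rot]; exact hqF, ?_⟩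
      intro u hu hui
      exact hX.qi q hqX hqF u ⟨(mem_Cz.1 hu).1, (mem_Cz.1 hu).2, hui⟩
  obtain ⟨r, hr, Y, hY⟩ := hyin G K a b c h hF hinfc X Z hX hZ
  have hYC : Y ≤ Cz K c := hY.le.trans hZ.le
  refine hend G K a b c h hN hF hfg Y hYC hY.inv hY.inf
    (hhdy G K a b c h hF hab X Z hX hZ hQ r Y hr hY) ?_
  intro s hs
  have hfi := (shu G K a b c h (Cz K c) a cz_le h.aa (fun u hu => h.cz_inv h.aa h.cac hu) (by
    refine hF.subset ?_
    rintro w ⟨hw, hwa⟩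
    exact h.mem_F (mem_Cz.1 hw).1 hwa (mem_Cz.1 hw).2)).1 s hs.cz hs.2.2
  exact fun h0 => hfi (Subgroup.relIndex_eq_zero_of_le_right hYC h0)

end Pool.Agent.FourGp.AB
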