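import Pool.Agent.Lib.MP_fb3619_al.AB.Iface

/-!
# MP_fb3619_al, board AB, row UPR (paper 8)

The subgroup generated by `A⁻` and `C⁻` is normalised by `K` and invariant under the four-group.
-/

set_option autoImplicit false

universe u

namespace Pool.Agent.FourGp.AB

open Pool.Agent.FourGp.FF

variable {G : Type u} [Group G] {K : Subgroup G} {a b c : G}

theorem upr_mi {f u : G} (hfK : f ∈ K) (ha : f * a = a * f) (hb : f * b = b * f)
    (hu : Mi K a b u) : Mi K a b (f⁻¹ * u * f) := by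
  obtain ⟨hu1, hu2⟩ := hu
  obtain ⟨huK, hua⟩ := mem_Cz.1 hu1
  have c1 : Commute f a := ha
  have c2 : Commute u a := hua
  have c3 : Commute f b := hb
  refine ⟨mem_Cz.2 ⟨K.mul_mem (K.mul_mem (K.inv_mem hfK) huK) hfK, ?_⟩, ?_⟩
  · exact ((c1.inv_left.mul_left c2).mul_left c1).eq
  · calc b * (f⁻¹ * u * f) * b = (b * f⁻¹) * u * (f * b) := by group
      _ = (f⁻¹ * b) * u * (b * f) := by rw [c3.inv_left.eq, hb]
      _ = f⁻¹ * (b * u * b) * f := by group
      _ = (f⁻¹ * u * f)⁻¹ := by rw [hu2]; group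

theorem upr_f (h : Fr K a b c) {f u : G} (hfK : f ∈ K) (ha : f * a = a * f) (hb : f * b = b * f)
    (hu : u ∈ Uc K a b c) : f⁻¹ * u * f ∈ Uc K a b c := by
  have c1 : Commute f a := ha
  have c3 : Commute f b := hb
  have c2 : Commute f (a * b) := c1.mul_right c3
  rw [h.ab] at c2
  unfold Uc at hu
  refine Subgroup.closure_induction (p := fun u _ => f⁻¹ * u * f ∈ Uc K a b c)
    ?_ ?_ ?_ ?_ hu
  · rintro x (hx | hx)
    · exact Subgroup.subset_closure (Or.inl (upr_mi hfK ha hb hx))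
    · exact Subgroup.subset_closure (Or.inr (upr_mi hfK c2 hb hx))
  · have : f⁻¹ * 1 * f = 1 := by group
    rw [this]
    exact (Uc K a b c).one_mem
  · intro x y _ _ hx hy
    have : f⁻¹ * (x * y) * f = (f⁻¹ * x * f) * (f⁻¹ * y * f) := by group
    rw [this]
    exact (Uc K a b c).mul_mem hx hy
  · intro x _ hx
    have : f⁻¹ * x⁻¹ * f = (f⁻¹ * x * f)⁻¹ := by group
    rw [this]
    exact (Uc K a b c).inv_mem hx

theorem upr_sq (h : Fr K a b c) {α β : G} (hα : Mi K a b α) (hβ : β ∈ Cz K b) :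
    β⁻¹ * (α * α) * β ∈ Uc K a b c := by
  obtain ⟨hβK, hβb⟩ := mem_Cz.1 hβ
  obtain ⟨hαK, hαa⟩ := mem_Cz.1 hα.1
  have hk : β⁻¹ * α ∈ K := K.mul_mem (K.inv_mem hβK) hαK
  obtain ⟨α', γ, β', hα', hγ, hβ', e, h1, h2, h3, h4, h5⟩ :=
    h.swap'.fac (X := K) le_rfl (fun u hu => h.cjmem h.aa hu) (fun u hu => h.cjmem h.cc hu) hk
  obtain ⟨w, s, hw, hs, e1, h6, h7⟩ := h.dec (X := Cz K a) Fr.cz_le2 h.bb
    (fun u hu => h.cz_inv2 hu) (mem_Cz.2 ⟨hα', h1⟩)
  obtain ⟨hwK, hwa⟩ := mem_Cz.1 hw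
  have h8 : b * γ * b = γ⁻¹ := h.swap'.inv_c h2 h3
  have hsM : Mi K a b s := ⟨hs, h7⟩
  have hγM : Mi K c b γ := ⟨mem_Cz.2 ⟨hγ, h2⟩, h8⟩
  rw [e1] at e
  have i1 : b * β⁻¹ * b = β⁻¹ := by
    have : b * β⁻¹ = β⁻¹ * b := by
      calc b * β⁻¹ = β⁻¹ * (β * b) * β⁻¹ := by group
        _ = β⁻¹ * (b * β) * β⁻¹ := by rw [hβb]
        _ = β⁻¹ * b := by group
    rw [this, mul_assoc, h.bb, mul_one]
  have i2 : b * w * b = w := by rw [← h6, mul_assoc, h.bb, mul_one]
  have i3 : b * β' * b = β' := by rw [← h4, mul_assoc, h.bb, mul_one]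
  have e2 : β⁻¹ * α⁻¹ = w * s⁻¹ * γ⁻¹ * β' := by
    calc β⁻¹ * α⁻¹ = (b * β⁻¹ * b) * (b * α * b) := by rw [i1, hα.2]
      _ = b * β⁻¹ * (b * b) * α * b := by group
      _ = b * (β⁻¹ * α) * b := by rw [h.bb]; group
      _ = b * (w * s * γ * β') * b := by rw [e]
      _ = b * w * 1 * s * 1 * γ * 1 * β' * b := by group
      _ = b * w * (b * b) * s * (b * b) * γ * (b * b) * β' * b := by rw [h.bb]
      _ = (b * w * b) * (b * s * b) * (b * γ * b) * (b * β' * b) := by group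
      _ = w * s⁻¹ * γ⁻¹ * β' := by rw [i2, h7, h8, i3]
  have e3 : β⁻¹ * (α * α) * β = (w⁻¹)⁻¹ * (s * γ * γ * s) * w⁻¹ := by
    calc β⁻¹ * (α * α) * β = (β⁻¹ * α) * (β⁻¹ * α⁻¹)⁻¹ := by group
      _ = (w * s * γ * β') * (w * s⁻¹ * γ⁻¹ * β')⁻¹ := by rw [e, e2]
      _ = (w⁻¹)⁻¹ * (s * γ * γ * s) * w⁻¹ := by group
  rw [e3]
  have m1 : s ∈ Uc K a b c := Subgroup.subset_closure (Or.inl hsM)
  have m2 : γ ∈ Uc K a b c := Subgroup.subset_closure (Or.inr hγM)
  have c1 : Commute w a := hwa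
  have c2 : Commute w b := h6
  exact upr_f h (K.inv_mem hwK) c1.inv_left.eq c2.inv_left.eq
    ((Uc K a b c).mul_mem ((Uc K a b c).mul_mem ((Uc K a b c).mul_mem m1 m2) m2) m1)

theorem upr_one (h : Fr K a b c) {α β : G} (hα : Mi K a b α) (hβ : β ∈ Cz K b) :
    β⁻¹ * α * β ∈ Uc K a b c := by
  obtain ⟨n, hn⟩ := h.odd α (mem_Cz.1 hα.1).1
  have e1 : (α * α) ^ (n + 1) = α := by
    calc (α * α) ^ (n + 1) = α ^ (2 * n + 1) * α := by
          rw [← pow_two, ← pow_mul, show 2 * (n + 1) = 2 * n + 1 + 1 by ring, pow_succ]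
      _ = α := by rw [hn, one_mul]
  have e2 : ∀ m : ℕ, (β⁻¹ * (α * α) * β) ^ m = β⁻¹ * (α * α) ^ m * β := by
    intro m
    induction m with
    | zero => simp
    | succ m ih => rw [pow_succ, ih, pow_succ]; group
  have e3 : β⁻¹ * α * β = (β⁻¹ * (α * α) * β) ^ (n + 1) := by rw [e2, e1]
  rw [e3]
  exact (Uc K a b c).pow_mem (upr_sq h hα hβ) _

theorem upr_b (h : Fr K a b c) {u β : G} (hu : u ∈ Uc K a b c) (hβ : β ∈ Cz K b) :
    β⁻¹ * u * β ∈ Uc K a b c := by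
  have h' : Fr K c b a := h.rot.swap
  unfold Uc at hu
  refine Subgroup.closure_induction (p := fun u _ => β⁻¹ * u * β ∈ Uc K a b c)
    ?_ ?_ ?_ ?_ hu
  · rintro x (hx | hx)
    · exact upr_one h hx hβ
    · rw [Uc_swap]
      exact upr_one h' hx hβ
  · have : β⁻¹ * 1 * β = 1 := by group
    rw [this]
    exact (Uc K a b c).one_mem
  · intro x y _ _ hx hy
    have : β⁻¹ * (x * y) * β = (β⁻¹ * x * β) * (β⁻¹ * y * β) := by group
    rw [this]
    exact (Uc K a b c).mul_mem hx hy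
  · intro x _ hx
    have : β⁻¹ * x⁻¹ * β = (β⁻¹ * x * β)⁻¹ := by group
    rw [this]
    exact (Uc K a b c).inv_mem hx

/-- Conjugation by an involution which maps generators into the subgroup. -/
theorem upr_inv {z : G} (hz : z * z = 1)
    (hg : ∀ u, (Mi K a b u ∨ Mi K c b u) → z * u * z ∈ Uc K a b c) {u : G}
    (hu : u ∈ Uc K a b c) : z * u * z ∈ Uc K a b c := by
  unfold Uc at hu
  refine Subgroup.closure_induction (p := fun u _ => z * u * z ∈ Uc K a b c)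
    ?_ ?_ ?_ ?_ hu
  · exact fun x hx => hg x hx
  · rw [mul_one, hz]
    exact (Uc K a b c).one_mem
  · intro x y _ _ hx hy
    have : z * (x * y) * z = (z * x * z) * (z * y * z) := by
      calc z * (x * y) * z = z * x * 1 * y * z := by group
        _ = z * x * (z * z) * y * z := by rw [hz]
        _ = _ := by group
    rw [this]
    exact (Uc K a b c).mul_mem hx hy
  · intro x _ hx
    have hz' : z⁻¹ = z := inv_eq_of_mul_eq_one_left hz
    have : z * x⁻¹ * z = (z * x * z)⁻¹ := by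
      rw [mul_inv_rev, mul_inv_rev, hz']; group
    rw [this]
    exact (Uc K a b c).inv_mem hx

/-- Row UPR. -/
theorem upr : UprS.{u} := by
  intro G _ K a b c h
  refine ⟨?_, ?_, ?_⟩
  · intro k hk x hx
    obtain ⟨β, u, hβ, hu, e⟩ := h.fac_Uc hk
    have e1 : k⁻¹ * x * k = u⁻¹ * (β⁻¹ * x * β) * u := by rw [e]; group
    rw [e1]
    exact (Uc K a b c).mul_mem ((Uc K a b c).mul_mem ((Uc K a b c).inv_mem hu) (upr_b h hx hβ)) hu
  · intro u hu
    refine upr_inv h.aa ?_ hu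
    rintro x (hx | hx)
    · have e : a * x * a = x := by
        rw [← (mem_Cz.1 hx.1).2, mul_assoc, h.aa, mul_one]
      rw [e]
      exact Subgroup.subset_closure (Or.inl hx)
    · have e : a * x * a = x⁻¹ := by
        have := h.rot.inv_c (mem_Cz.1 hx.1).2 hx.2
        exact this
      rw [e]
      exact (Uc K a b c).inv_mem (Subgroup.subset_closure (Or.inr hx))
  · intro u hu
    refine upr_inv h.bb ?_ hu
    rintro x hx
    have e : b * x * b = x⁻¹ := by
      rcases hx with hx | hx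
      · exact hx.2
      · exact hx.2
    rw [e]
    exact (Uc K a b c).inv_mem (Subgroup.subset_closure hx)

end Pool.Agent.FourGp.AB
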